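import Pool.Agent.V11254.Kat.Rec5

/-!
# Slalom and Katetov numbers of intersections and disjoint sums of ideals

For ideals `I, J₀, J₁` on `ℕ` the question asks whether the intersection `J₀ ∩ J₁` and the disjoint
sum `J₀ ⊕ J₁` have the same numbers (i) `sl_e(I, ·)`, (ii) `p_K(I, ·)`, (iii) `sl_e(star, ·)`,
(iv) `p_K(star, ·)`.

* (ii) is false in ZFC. Example: `I` = the sets with at most `c (k+1)` elements below `2^k`, `J₀` and
  `J₁` = the sets of pairs whose first (second) projection lies in `I`. Both projections witness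
  `I ≤_K J₀` and `I ≤_K J₁`, while `I ≰_K J₀ ∩ J₁`: all rows of a witness would be unbounded, and one
  value in each row forms a sparse set.
* (i), (iii) and (iv) are false if `P(ℕ)` has the weak Freese-Nation property, there is a Luzin set
  of size `ℵ₁`, `cov(M) > ℵ₁` and `2^ℵ₁ = ℵ₂`. All of this holds after adding `ℵ₂` Cohen reals to a
  model of GCH. For (i) and (iii) the ideals are built by a recursion of length `ω₂`; slaloms with
  values in the sparse ideal which come from the Luzin set are not evaded modulo `J₀ ∩ J₁`.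
* (iv) is false already if `2^𝔱 = 𝔠`, for the tower number `𝔱`, and true if `2^𝔭 > 𝔠`, for the
  pseudointersection number `𝔭`. In the second case `sl_e(star, J) = p_K(star, J) = 𝔭` for every
  ideal `J`, so (iii) is true as well. (i) is true if `𝔭 = 𝔠`.

So (ii) is refuted in ZFC and (i), (iii), (iv) are independent of ZFC.
-/

set_option autoImplicit false

open Set Cardinal

namespace Pool.Agent.Results.MP_8697f8_lc.FourStatements

open Pool.Agent.V11254.Kat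

theorem result :
    -- (ii) fails in ZFC
    (∃ I J₀ J₁ : Set (Set ℕ), IsIdeal I ∧ IsIdeal J₀ ∧ IsIdeal J₁ ∧
      pK I (J₀ ∩ J₁) < ⊤ ∧ pK I (osum J₀ J₁) = ⊤) ∧
    -- (i), (iii) and (iv) fail under hypotheses which hold in the Cohen model
    ((∃ F : Set ℕ → Set (Set ℕ), WFN F) → (∃ L : Set (ℕ → ℕ), IsLuzin L) → ℵ₁ < covM →
      (2 : Cardinal.{0}) ^ (ℵ₁ : Cardinal.{0}) = Order.succ ℵ₁ →
      (∃ I J₀ J₁ : Set (Set ℕ), IsIdeal I ∧ IsIdeal J₀ ∧ IsIdeal J₁ ∧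
        sle I (J₀ ∩ J₁) < sle I (osum J₀ J₁) ∧
        sleStar (J₀ ∩ J₁) < sleStar (osum J₀ J₁)) ∧
      (∃ J₀ J₁ : Set (Set ℕ), IsIdeal J₀ ∧ IsIdeal J₁ ∧
        pKStar (J₀ ∩ J₁) < pKStar (osum J₀ J₁))) ∧
    -- (iv) fails if `2^𝔱 = 𝔠`
    (2 ^ towerNumber = 𝔠 → ∃ J₀ J₁ : Set (Set ℕ), IsIdeal J₀ ∧ IsIdeal J₁ ∧
      pKStar (J₀ ∩ J₁) < pKStar (osum J₀ J₁)) ∧
    -- (iii) and (iv) hold if `𝔠 < 2^𝔭`
    (𝔠 < 2 ^ pNumber → ∀ J₀ J₁ : Set (Set ℕ), IsIdeal J₀ → IsIdeal J₁ →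
      sleStar (J₀ ∩ J₁) = sleStar (osum J₀ J₁) ∧
      pKStar (J₀ ∩ J₁) = pKStar (osum J₀ J₁)) ∧
    -- (i) holds if `𝔭 = 𝔠`
    (pNumber = 𝔠 → ∀ I J₀ J₁ : Set (Set ℕ), IsIdeal I → IsIdeal J₀ → IsIdeal J₁ →
      sle I (J₀ ∩ J₁) = sle I (osum J₀ J₁)) := by
  refine ⟨?_, ?_, ?_, ?_, ?_⟩
  · obtain ⟨I, J₀, J₁, hI, h₀, h₁, htop, hlt⟩ := ii_fails
    exact ⟨I, J₀, J₁, hI, h₀, h₁, hlt, htop⟩
  · rintro ⟨F, hF⟩ ⟨L, hL⟩ hcov hc
    refine ⟨?_, ?_⟩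
    · obtain ⟨J₀, J₁, h₀, h₁, hle, hgt⟩ := i_iii_fail hF hL hcov hc
      refine ⟨sparse, J₀, J₁, sparse_isIdeal, h₀, h₁,
        lt_of_le_of_lt hle (hgt sparse sparse_isIdeal).1, ?_⟩
      have h2 : sleStar (J₀ ∩ J₁) ≤ ((ℵ₁ : Cardinal.{0}) : WithTop Cardinal.{0}) :=
        (iInf₂_le sparse sparse_isIdeal).trans hle
      have h3 : ((Order.succ (ℵ₁ : Cardinal.{0}) : Cardinal.{0}) : WithTop Cardinal.{0}) ≤
          sleStar (osum J₀ J₁) := le_iInf₂ fun I hI => (hgt I hI).2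
      exact lt_of_le_of_lt h2 (lt_of_lt_of_le (WithTop.coe_lt_coe.2 (Order.lt_succ _)) h3)
    · obtain ⟨J₀, J₁, h₀, h₁, hle, hlt⟩ := iv_fails' hL hcov hc
      exact ⟨J₀, J₁, h₀, h₁, lt_of_le_of_lt hle hlt⟩
  · intro hc
    obtain ⟨J₀, J₁, h₀, h₁, hle, hlt⟩ := iv_fails hc
    exact ⟨J₀, J₁, h₀, h₁, lt_of_le_of_lt hle hlt⟩
  · intro hc J₀ J₁ h₀ h₁
    have h2 := all_eq_p hc (inter_isIdeal h₀ h₁)
    have h3 := all_eq_p hc (osum_isIdeal h₀ h₁)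
    exact ⟨h2.1.trans h3.1.symm, h2.2.trans h3.2.symm⟩
  · intro hc I J₀ J₁ hI h₀ h₁
    exact (all_eq_c hc hI (inter_isIdeal h₀ h₁)).trans (all_eq_c hc hI (osum_isIdeal h₀ h₁)).symm

end Pool.Agent.Results.MP_8697f8_lc.FourStatements
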